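import Pool.Agent.Work.MP_3169d4_al.SL2

set_option autoImplicit false

namespace Pool.Agent.Work.MP3169

/-- weighted sum over the m-torsion of a finite cyclic group -/
theorem cyclic_sum {C : Type} [CommGroup C] [Fintype C] [IsCyclic C] [DecidableEq C] (m : ℕ)
    (hm : m ∣ Fintype.card C) (w : ℕ → ℕ) :
    ∑ x ∈ Finset.univ.filter (fun x : C => x ^ m = 1), w (orderOf x) =
      ∑ d ∈ m.divisors, Nat.totient d * w d := by
  have hm0 : m ≠ 0 := by
    rintro rfl
    have := Fintype.card_pos (α := C)
    have h := Nat.eq_zero_of_zero_dvd hm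
    omega
  rw [← Finset.sum_fiberwise_of_maps_to (t := m.divisors) (g := orderOf)]
  · apply Finset.sum_congr rfl
    intro d hd
    have hdm : d ∣ m := Nat.dvd_of_mem_divisors hd
    rw [Finset.sum_congr rfl (g := fun _ => w d)]
    · rw [Finset.sum_const, smul_eq_mul, ← IsCyclic.card_orderOf_eq_totient (hdm.trans hm)]
      congr 2
      ext x
      simp only [Finset.mem_filter, Finset.mem_univ, true_and]
      constructor
      · exact fun h => h.2
      · intro h
        exact ⟨orderOf_dvd_iff_pow_eq_one.1 (h ▸ hdm), h⟩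
    · intro x hx
      rw [(Finset.mem_filter.1 hx).2]
  · intro x hx
    rw [Nat.mem_divisors]
    exact ⟨orderOf_dvd_iff_pow_eq_one.2 (Finset.mem_filter.1 hx).2, hm0⟩

/-- the sum of squares of totients of divisors -/
def S (m : ℕ) : ℕ := ∑ d ∈ m.divisors, Nat.totient d * Nat.totient d

theorem S511 : S 511 = 191845 := by decide +kernel
theorem S513 : S 513 = 118625 := by decide +kernel

section

variable {E : Type} [Field E] [CharP E 2]

/-- the subfield of elements with `x ^ 512 = x` -/
def FF (E : Type) [Field E] [CharP E 2] : Subfield E :=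
  RingHom.eqLocusField (iterateFrobenius E 2 9) (RingHom.id E)

theorem mem_FF (x : E) : x ∈ FF E ↔ x ^ 512 = x := by
  rw [FF, RingHom.mem_eqLocusField]
  rfl

variable [Fintype E] [DecidableEq E] (hE : Fintype.card E = 262144)

include hE

omit [CharP E 2] in
theorem card_units : Fintype.card Eˣ = 262143 := by
  rw [Fintype.card_units, hE]

omit [CharP E 2] in
theorem card_tor (m : ℕ) (hm : m ∣ 262143) :
    (Finset.univ.filter (fun x : Eˣ => x ^ m = 1)).card = m := by
  have h := cyclic_sum (C := Eˣ) m (by rw [card_units hE]; exact hm) (fun _ => 1)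
  rw [Finset.sum_const, smul_eq_mul, mul_one] at h
  rw [h]
  simp only [mul_one]
  exact Nat.sum_totient m

theorem card_FF [Fintype (FF E)] : Fintype.card (FF E) = 512 := by
  have h1 : Fintype.card (FF E) = (Finset.univ.filter (fun x : E => x ^ 512 = x)).card := by
    apply Fintype.card_of_subtype
    intro x
    rw [mem_FF]
    simp
  rw [h1, Finset.card_filter]
  rw [← Finset.add_sum_erase _ _ (Finset.mem_univ (0 : E))]
  have h2 : ∑ x ∈ Finset.univ.erase (0 : E), (if x ^ 512 = x then 1 else 0) =
      ∑ y : {a : E // a ≠ 0}, (if (y : E) ^ 512 = y then 1 else 0) := by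
    apply Finset.sum_subtype
    simp
  rw [h2, ← Equiv.sum_comp (unitsEquivNeZero (G₀ := E))]
  have h3 : ∀ y : Eˣ, ((unitsEquivNeZero y : {a : E // a ≠ 0}) : E) = y := fun y => rfl
  simp only [h3]
  have h4 : ∀ y : Eˣ, ((y : E) ^ 512 = y ↔ y ^ 511 = 1) := by
    intro y
    rw [Units.ext_iff, Units.val_pow_eq_pow_val, Units.val_one]
    constructor
    · intro h
      have h5 : (y : E) * (y : E) ^ 511 = y * 1 := by rw [← pow_succ', h, mul_one]
      exact mul_left_cancel₀ y.ne_zero h5
    · intro h
      rw [pow_succ', h, mul_one]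
  simp only [h4]
  rw [← Finset.card_filter, card_tor hE 511 (by norm_num)]
  simp

/-- the union of the two tori -/
def UU (E : Type) [Field E] [Fintype E] [DecidableEq E] : Finset Eˣ :=
  Finset.univ.filter (fun x : Eˣ => x ^ 511 = 1) ∪ Finset.univ.filter (fun x : Eˣ => x ^ 513 = 1)

omit [CharP E 2] hE in
theorem inter_eq : (Finset.univ.filter (fun x : Eˣ => x ^ 511 = 1)) ∩
    (Finset.univ.filter (fun x : Eˣ => x ^ 513 = 1)) = {1} := by
  ext x
  simp only [Finset.mem_inter, Finset.mem_filter, Finset.mem_univ, true_and, Finset.mem_singleton]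
  constructor
  · rintro ⟨h1, h2⟩
    have h3 := orderOf_dvd_of_pow_eq_one h1
    have h4 := orderOf_dvd_of_pow_eq_one h2
    have h5 := Nat.dvd_gcd h3 h4
    have h6 : Nat.gcd 511 513 = 1 := by norm_num
    rw [h6, Nat.dvd_one, orderOf_eq_one_iff] at h5
    exact h5
  · rintro rfl
    simp

omit [CharP E 2] in
theorem sum_UU (w : ℕ → ℕ) (hw : w 1 = 1) : ∑ x ∈ UU E, w (orderOf x) + 1 =
    ∑ d ∈ (511 : ℕ).divisors, Nat.totient d * w d +
      ∑ d ∈ (513 : ℕ).divisors, Nat.totient d * w d := by
  rw [← cyclic_sum (C := Eˣ) 511 (by rw [card_units hE]; norm_num) w,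
    ← cyclic_sum (C := Eˣ) 513 (by rw [card_units hE]; norm_num) w,
    ← Finset.sum_union_inter, inter_eq, Finset.sum_singleton, orderOf_one, hw]
  rfl

omit hE in
omit [Fintype E] [DecidableEq E] in
theorem inv_add_mem {x : Eˣ} (hx : x ^ 511 = 1 ∨ x ^ 513 = 1) :
    (x : E) + (x : E)⁻¹ ∈ FF E := by
  rw [mem_FF]
  have h1 : ((x : E) + (x : E)⁻¹) ^ 512 = (x : E) ^ 512 + ((x : E)⁻¹) ^ 512 :=
    add_pow_char_pow (x : E) ((x : E)⁻¹) 2 9
  rw [h1]
  rcases hx with hx | hx
  · have h2 : (x : E) ^ 511 = 1 := by
      rw [← Units.val_pow_eq_pow_val, hx, Units.val_one]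
    have h3 : (x : E) ^ 512 = x := by rw [pow_succ, h2, one_mul]
    rw [inv_pow, h3]
  · have h2 : (x : E) ^ 513 = 1 := by
      rw [← Units.val_pow_eq_pow_val, hx, Units.val_one]
    have h3 : (x : E) ^ 512 = (x : E)⁻¹ := by
      apply eq_inv_of_mul_eq_one_left
      rw [← pow_succ, h2]
    rw [inv_pow, h3, inv_inv, add_comm]

open Classical in
/-- the trace map to the subfield -/
noncomputable def kk (x : Eˣ) : FF E :=
  if h : (x : E) + (x : E)⁻¹ ∈ FF E then ⟨(x : E) + (x : E)⁻¹, h⟩ else 0

omit hE in
theorem kk_eq {x : Eˣ} (hx : x ∈ UU E) : ((kk x : FF E) : E) = (x : E) + (x : E)⁻¹ := by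
  have h : (x : E) + (x : E)⁻¹ ∈ FF E := by
    apply inv_add_mem
    simpa [UU] using hx
  rw [kk, dif_pos h]

instance charPFF : CharP (FF E) 2 := by
  have : Function.Injective (algebraMap (FF E) E) := (algebraMap (FF E) E).injective
  exact RingHom.charP (algebraMap (FF E) E) this 2

omit hE in
theorem fib_zero : ((UU E).filter (fun x => kk x = 0)).card ≤ 1 := by
  rw [Finset.card_le_one]
  have key : ∀ a ∈ (UU E).filter (fun x => kk x = 0), a = 1 := by
    intro a ha
    rw [Finset.mem_filter] at ha
    have h1 := kk_eq ha.1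
    rw [ha.2] at h1
    have h2 : (a : E) * ((a : E) + (a : E)⁻¹) = 0 := by
      rw [← h1]; simp
    rw [mul_add, mul_inv_cancel₀ a.ne_zero] at h2
    have h3 : ((a : E) - 1) * ((a : E) - 1) = 0 := by
      have h4 : (2 : E) = 0 := CharTwo.two_eq_zero
      linear_combination h2 - (a : E) * h4
    have h5 : (a : E) - 1 = 0 := mul_self_eq_zero.1 h3
    ext
    rw [Units.val_one]
    exact sub_eq_zero.1 h5
  intro a ha b hb
  rw [key a ha, key b hb]

omit hE in
theorem fib_le (j : FF E) : ((UU E).filter (fun x => kk x = j)).card ≤ 2 := by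
  by_cases hne : ((UU E).filter (fun x => kk x = j)).Nonempty
  · obtain ⟨a, ha⟩ := hne
    have hsub : (UU E).filter (fun x => kk x = j) ⊆ {a, a⁻¹} := by
      intro b hb
      rw [Finset.mem_filter] at ha hb
      have h1 := kk_eq ha.1
      have h2 := kk_eq hb.1
      rw [ha.2] at h1
      rw [hb.2, h1] at h2
      have h3 : ((a : E) - b) * ((a : E) * b - 1) = 0 := by
        have ha0 := a.ne_zero
        have hb0 := b.ne_zero
        field_simp at h2
        linear_combination h2
      rcases mul_eq_zero.1 h3 with h4 | h4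
      · have : b = a := by
          ext
          exact (sub_eq_zero.1 h4).symm
        simp [this]
      · have : b = a⁻¹ := by
          rw [eq_inv_iff_mul_eq_one]
          ext
          rw [Units.val_mul, Units.val_one, mul_comm]
          exact sub_eq_zero.1 h4
        simp [this]
    exact (Finset.card_le_card hsub).trans Finset.card_le_two
  · rw [Finset.not_nonempty_iff_eq_empty] at hne
    rw [hne]
    simp

omit [CharP E 2] in
theorem card_UU : (UU E).card = 1023 := by
  have h := sum_UU hE (fun _ => 1) rfl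
  rw [Finset.sum_const, smul_eq_mul, mul_one] at h
  simp only [mul_one] at h
  have h1 := Nat.sum_totient 511
  have h2 := Nat.sum_totient 513
  linarith

theorem fib_card [Fintype (FF E)] (j : FF E) :
    ((UU E).filter (fun x => kk x = j)).card + (if j = 0 then 1 else 0) = 2 := by
  classical
  have hle : ∀ j ∈ (Finset.univ : Finset (FF E)),
      ((UU E).filter (fun x => kk x = j)).card + (if j = 0 then 1 else 0) ≤ 2 := by
    intro j _
    by_cases hj : j = 0
    · rw [if_pos hj, hj]
      have := fib_zero (E := E)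
      omega
    · rw [if_neg hj]
      exact fib_le j
  have hsum : ∑ j : FF E, (((UU E).filter (fun x => kk x = j)).card + (if j = 0 then 1 else 0)) =
      ∑ j : FF E, 2 := by
    rw [Finset.sum_add_distrib, Finset.sum_const, Finset.card_univ, card_FF hE]
    have h1 : ∑ j : FF E, ((UU E).filter (fun x => kk x = j)).card = (UU E).card := by
      rw [Finset.card_eq_sum_card_fiberwise (f := kk) (t := Finset.univ)]
      intro x _
      simp
    rw [h1, card_UU hE]
    simp
  exact (Finset.sum_eq_sum_iff_of_le hle).1 hsum j (Finset.mem_univ j)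

theorem two_sum_fo [Fintype (FF E)] : 2 * ∑ t : FF E, fo t = S 511 + S 513 := by
  classical
  have h0 : fo (0 : FF E) = 1 := by
    rw [fo]
    exact totient_of_tr_zero _ (tr_comp _)
  have h1 : ∑ x ∈ UU E, Nat.totient (orderOf x) =
      ∑ j : FF E, ((UU E).filter (fun x => kk x = j)).card * fo j := by
    rw [← Finset.sum_fiberwise (UU E) kk]
    apply Finset.sum_congr rfl
    intro j _
    rw [Finset.sum_congr rfl (g := fun _ => fo j), Finset.sum_const, smul_eq_mul]
    intro x hx
    rw [Finset.mem_filter] at hx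
    rw [fo_eq_of_root j (x : E) x.ne_zero, orderOf_units]
    rw [← hx.2]
    exact kk_eq hx.1
  have h2 := sum_UU hE Nat.totient Nat.totient_one
  have h3 : ∑ j : FF E, ((UU E).filter (fun x => kk x = j)).card * fo j + 1 =
      ∑ j : FF E, 2 * fo j := by
    have h4 : ∑ j : FF E, (if j = 0 then 1 else 0) * fo j = 1 := by
      simp [h0]
    rw [← h4, ← Finset.sum_add_distrib]
    apply Finset.sum_congr rfl
    intro j _
    rw [← add_mul, fib_card hE j]
  rw [Finset.mul_sum, ← h3, ← h1, h2, S, S]

/-- The totient sum over SL2 of the field with 512 elements. -/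
theorem sum_SL2 [Fintype (FF E)] [DecidableEq (FF E)] :
    ∑ g : Matrix.SpecialLinearGroup (Fin 2) (FF E), Nat.totient (orderOf g) = 40712668160 := by
  have h1 : ∑ g : Matrix.SpecialLinearGroup (Fin 2) (FF E), Nat.totient (orderOf g) =
      ∑ g : Matrix.SpecialLinearGroup (Fin 2) (FF E), fo (tr g) :=
    Finset.sum_congr rfl (fun g _ => totient_order_eq_fo g)
  rw [h1, sum_trace, card_FF hE]
  have h2 : ∑ a : (FF E)ˣ, fo ((a : FF E) + (a : FF E)⁻¹) = S 511 := by
    have h3 : ∀ a : (FF E)ˣ, fo ((a : FF E) + (a : FF E)⁻¹) = Nat.totient (orderOf a) := by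
      intro a
      rw [fo_eq_of_root (K := FF E) _ (a : FF E) a.ne_zero rfl, orderOf_units]
    simp only [h3]
    have hc : Fintype.card (FF E)ˣ = 511 := by
      rw [Fintype.card_units, card_FF hE]
    have h4 := cyclic_sum (C := (FF E)ˣ) 511 (by rw [hc]) Nat.totient
    rw [S, ← h4, Finset.filter_true_of_mem]
    intro x _
    rw [← hc]
    exact pow_card_eq_one
  rw [h2]
  have h5 := two_sum_fo hE
  rw [S511, S513] at h5
  have h6 : ∑ t : FF E, fo t = 155235 := by omega
  rw [h6, S511]

theorem card_SL2 [Fintype (FF E)] [DecidableEq (FF E)] :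
    Fintype.card (Matrix.SpecialLinearGroup (Fin 2) (FF E)) = 134217216 := by
  have h := sum_trace (F := FF E) (fun _ => 1)
  have hc : Fintype.card (FF E)ˣ = 511 := by
    rw [Fintype.card_units, card_FF hE]
  simp only [Finset.sum_const, Finset.card_univ, smul_eq_mul, mul_one, card_FF hE, hc] at h
  exact h

end

end Pool.Agent.Work.MP3169
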