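import Pool.Agent.Work.MP_3169d4_al.P512
import Pool.Agent.Work.MP_3169d4_al.Field

set_option autoImplicit false

namespace Pool.Agent.Work.MP3169

open SemidirectProduct

theorem not_simple_semi {N G : Type} [Group N] [Group G] [Nontrivial N] [Nontrivial G]
    (φ : G →* MulAut N) : ¬ IsSimpleGroup (N ⋊[φ] G) := by
  intro h
  rcases h.eq_bot_or_eq_top_of_normal (rightHom : N ⋊[φ] G →* G).ker inferInstance with h1 | h1
  · obtain ⟨n, hn⟩ := exists_ne (1 : N)
    have h2 : (inl n : N ⋊[φ] G) ∈ (rightHom : N ⋊[φ] G →* G).ker := by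
      rw [MonoidHom.mem_ker, rightHom_inl]
    rw [h1, Subgroup.mem_bot] at h2
    apply hn
    have h3 := congrArg SemidirectProduct.left h2
    simpa using h3
  · obtain ⟨g, hg⟩ := exists_ne (1 : G)
    have h2 : (inr g : N ⋊[φ] G) ∈ (rightHom : N ⋊[φ] G →* G).ker := by
      rw [h1]; trivial
    rw [MonoidHom.mem_ker, rightHom_inr] at h2
    exact hg h2

theorem step {G K : Type} [Group G] [Fintype G] [Group K] (r : ℕ) [hr : Fact r.Prime]
    (c : K →* (ZMod r)ˣ) (π : G →* K) (hc : ¬ r ∣ Nat.card G) (F : K → ℕ) :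
    ∑ x : NN r ⋊[((act r).comp c).comp π] G,
      Nat.totient (orderOf x) * F (π x.right) =
    ∑ g : G, Nat.totient (orderOf g) *
      (F (π g) * (if c (π g) = 1 then 1 + (r - 1) ^ 2 else r)) := by
  have h := sum_semi (N := NN r) hr.out
    (natCard_NN r) (((act r).comp c).comp π)
    (fun g => F (π g))
  rw [h]
  apply Finset.sum_congr rfl
  intro g _
  congr 2
  have h1 : (((act r).comp c).comp π) g = 1 ↔ c (π g) = 1 := by
    rw [MonoidHom.comp_apply, MonoidHom.comp_apply, act_eq_one]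
  have h2 : ¬ r ∣ orderOf g := fun h3 => hc (h3.trans (orderOf_dvd_natCard g))
  by_cases h3 : c (π g) = 1
  · rw [if_pos ⟨h1.2 h3, h2⟩, if_pos h3]
  · rw [if_neg (fun h4 => h3 (h1.1 h4.1)), if_neg h3]

/-- unit of order 3 -/
def om7 : (ZMod 7)ˣ := ⟨2, 4, by decide, by decide⟩
/-- unit of order 9 -/
def om19 : (ZMod 19)ˣ := ⟨4, 5, by decide, by decide⟩
/-- unit of order 3 -/
def om73 : (ZMod 73)ˣ := ⟨8, 64, by decide, by decide⟩

/-- character on the 3-part -/
def c3 : L →* (ZMod 3)ˣ := mkChar 1 (by simp) (fun v => v.2.2.2.1) (fun _ _ => rfl)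
/-- character on the 7-part -/
def c7 : L →* (ZMod 7)ˣ := mkChar om7 (by decide +kernel) (fun v => v.1) (fun _ _ => rfl)
/-- character on the 19-part -/
def c19 : L →* (ZMod 19)ˣ := mkChar om19 (by decide +kernel) (fun v => v.2.1) (fun _ _ => rfl)
/-- character on the 73-part -/
def c73 : L →* (ZMod 73)ˣ := mkChar om73 (by decide +kernel) (fun v => v.2.2.1) (fun _ _ => rfl)

theorem c3_iff (l : L) : c3 l = 1 ↔ l.2.v.2.2.2.1 = 0 := by
  have h : ∀ (a : ZMod 9) (s : ZMod 2),
      (1 : (ZMod 3)ˣ) ^ a.val * (-1) ^ s.val = 1 ↔ s = 0 := by decide +kernel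
  exact h _ _

theorem c7_iff (l : L) : c7 l = 1 ↔ (3 * Multiplicative.toAdd l.1 = 0 ∧ l.2.v.1 = 0) := by
  have h : ∀ (a : ZMod 9) (s : ZMod 2),
      om7 ^ a.val * (-1) ^ s.val = 1 ↔ (3 * a = 0 ∧ s = 0) := by decide +kernel
  exact h _ _

theorem c19_iff (l : L) : c19 l = 1 ↔ (Multiplicative.toAdd l.1 = 0 ∧ l.2.v.2.1 = 0) := by
  have h : ∀ (a : ZMod 9) (s : ZMod 2),
      om19 ^ a.val * (-1) ^ s.val = 1 ↔ (a = 0 ∧ s = 0) := by decide +kernel
  exact h _ _

theorem c73_iff (l : L) : c73 l = 1 ↔ (3 * Multiplicative.toAdd l.1 = 0 ∧ l.2.v.2.2.1 = 0) := by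
  have h : ∀ (a : ZMod 9) (s : ZMod 2),
      om73 ^ a.val * (-1) ^ s.val = 1 ↔ (3 * a = 0 ∧ s = 0) := by decide +kernel
  exact h _ _

/-- first layer -/
abbrev H1 : Type := NN 3 ⋊[(act 3).comp c3] L
/-- projection -/
def p1 : H1 →* L := rightHom
/-- second layer -/
abbrev H2 : Type := NN 73 ⋊[((act 73).comp c73).comp p1] H1
/-- projection -/
def p2 : H2 →* L := p1.comp rightHom
/-- third layer -/
abbrev H3 : Type := NN 19 ⋊[((act 19).comp c19).comp p2] H2
/-- projection -/
def p3 : H3 →* L := p2.comp rightHom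
/-- fourth layer -/
abbrev H4 : Type := NN 7 ⋊[((act 7).comp c7).comp p3] H3

theorem natCard_mult (r : ℕ) : Nat.card (Multiplicative (ZMod r)) = r := by
  rw [Nat.card_congr Multiplicative.toAdd, Nat.card_zmod]

instance nontrivialNN (r : ℕ) [hr : Fact r.Prime] : Nontrivial (NN r) := by
  have : Finite (NN r) := Nat.finite_of_card_ne_zero (by
    rw [natCard_NN]; exact hr.out.ne_zero)
  rw [← Finite.one_lt_card_iff_nontrivial, natCard_NN]
  exact hr.out.one_lt

theorem card_L : Nat.card L = 4608 := by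
  rw [Nat.card_prod, natCard_mult, Nat.card_eq_fintype_card, P.card_P]

theorem card_H1 : Nat.card H1 = 13824 := by
  rw [SemidirectProduct.card, natCard_NN, card_L]

theorem card_H2 : Nat.card H2 = 1009152 := by
  rw [SemidirectProduct.card, natCard_NN, card_H1]

theorem card_H3 : Nat.card H3 = 19173888 := by
  rw [SemidirectProduct.card, natCard_NN, card_H2]

theorem card_H4 : Nat.card H4 = 134217216 := by
  rw [SemidirectProduct.card, natCard_NN, card_H3]

instance : Fact (Nat.Prime 19) := ⟨by norm_num⟩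
instance : Fact (Nat.Prime 73) := ⟨by norm_num⟩
instance : Fact (Nat.Prime 7) := ⟨by norm_num⟩

/-- explicit weight -/
def gg (z : ZMod 9) (v : V6) : ℕ :=
  ((if z = 0 then 1 else if 3 * z = 0 then 2 else 6) * (if bet v v = 0 then 1 else 2)) *
    ((1 * (if 3 * z = 0 ∧ v.1 = 0 then 37 else 7) * (if z = 0 ∧ v.2.1 = 0 then 325 else 19) *
      (if 3 * z = 0 ∧ v.2.2.1 = 0 then 5185 else 73)) *
      (if z = 0 ∧ v.2.2.2.1 = 0 then 5 else 3))

theorem gg_sum : ∑ z : ZMod 9, ∑ v : V6, gg z v = 5089083520 := by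
  decide +kernel

theorem pow_nine (z : Multiplicative (ZMod 9)) : z ^ 9 = 1 := by
  have h : ∀ a : ZMod 9, 9 • a = 0 := by decide +kernel
  exact congrArg Multiplicative.ofAdd (h (Multiplicative.toAdd z))

theorem pow_three_iff (z : Multiplicative (ZMod 9)) :
    z ^ 3 = 1 ↔ 3 * Multiplicative.toAdd z = 0 := by
  have h : ∀ a : ZMod 9, 3 • a = 0 ↔ 3 * a = 0 := by decide +kernel
  rw [← h]
  exact Iff.rfl

theorem order_z_dvd (z : Multiplicative (ZMod 9)) : orderOf z ∣ 9 :=
  orderOf_dvd_iff_pow_eq_one.2 (pow_nine z)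

theorem totient_L (l : L) : Nat.totient (orderOf l) =
    (if Multiplicative.toAdd l.1 = 0 then 1 else if 3 * Multiplicative.toAdd l.1 = 0 then 2 else 6) *
      (if bet l.2.v l.2.v = 0 then 1 else 2) := by
  have hc : Nat.Coprime (orderOf l.1) (orderOf l.2) := by
    apply Nat.Coprime.coprime_dvd_left (order_z_dvd l.1)
    apply Nat.Coprime.coprime_dvd_right (order_four_dvd l.2 (P.fourth l.2))
    norm_num
  rw [Prod.orderOf, hc.lcm_eq_mul, Nat.totient_mul hc, totient_order_nine l.1 (pow_nine l.1),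
    totient_order_four l.2 (P.fourth l.2)]
  congr 1
  · have h1 : l.1 = 1 ↔ Multiplicative.toAdd l.1 = 0 := Iff.rfl
    simp only [h1, pow_three_iff]
  · simp only [P.sq_eq_one_iff]

theorem three_dvd_iff (l : L) : 3 ∣ orderOf l ↔ Multiplicative.toAdd l.1 ≠ 0 := by
  rw [Prod.orderOf]
  have h4 : ¬ 3 ∣ orderOf l.2 := by
    intro h
    have h1 := h.trans (order_four_dvd l.2 (P.fourth l.2))
    norm_num at h1
  rw [(Nat.Prime.dvd_lcm Nat.prime_three)]
  constructor
  · rintro (h | h)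
    · intro h0
      have h1 : l.1 = 1 := h0
      rw [h1, orderOf_one] at h
      norm_num at h
    · exact absurd h h4
  · intro h
    left
    have h9 := order_z_dvd l.1
    rcases (Nat.dvd_prime_pow Nat.prime_three).1 (show orderOf l.1 ∣ 3 ^ 2 from h9) with
      ⟨k, hk, hk'⟩
    rcases Nat.eq_zero_or_pos k with h0 | h0
    · exfalso
      rw [h0, pow_zero, orderOf_eq_one_iff] at hk'
      exact h hk'
    · rw [hk']
      exact dvd_pow_self 3 (by omega)

theorem term_eq (l : L) {_ : Decidable (c7 l = 1)} {_ : Decidable (c19 l = 1)}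
    {_ : Decidable (c73 l = 1)} {_ : Decidable (((act 3).comp c3) l = 1 ∧ ¬ 3 ∣ orderOf l)} :
    Nat.totient (orderOf l) *
      ((1 * (if c7 l = 1 then 1 + (7 - 1) ^ 2 else 7) *
        (if c19 l = 1 then 1 + (19 - 1) ^ 2 else 19) *
        (if c73 l = 1 then 1 + (73 - 1) ^ 2 else 73)) *
        (if ((act 3).comp c3) l = 1 ∧ ¬ 3 ∣ orderOf l then 1 + (3 - 1) ^ 2
          else 3)) = gg (Multiplicative.toAdd l.1) l.2.v := by
  have h2 : (((act 3).comp c3) l = 1 ∧ ¬ 3 ∣ orderOf l) ↔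
      (Multiplicative.toAdd l.1 = 0 ∧ l.2.v.2.2.2.1 = 0) := by
    rw [MonoidHom.comp_apply, act_eq_one, c3_iff, three_dvd_iff, not_not]
    exact and_comm
  rw [totient_L, gg]
  congr 1
  congr 1
  · congr 1
    · congr 1
      · congr 1
        exact if_congr (c7_iff l) (by norm_num) rfl
      · exact if_congr (c19_iff l) (by norm_num) rfl
    · exact if_congr (c73_iff l) (by norm_num) rfl
  · exact if_congr h2 (by norm_num) rfl

theorem sum_H4 : ∑ x : H4, Nat.totient (orderOf x) = 40712668160 := by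
  have e4 := step (K := L) 7 c7 p3 (by rw [card_H3]; norm_num) (fun _ => 1)
  have e3 := step (K := L) 19 c19 p2 (by rw [card_H2]; norm_num)
    (fun l => 1 * (if c7 l = 1 then 1 + (7 - 1) ^ 2 else 7))
  have e2 := step (K := L) 73 c73 p1 (by rw [card_H1]; norm_num)
    (fun l => 1 * (if c7 l = 1 then 1 + (7 - 1) ^ 2 else 7) *
      (if c19 l = 1 then 1 + (19 - 1) ^ 2 else 19))
  have e1 := sum_semi (N := NN 3) (G := L) Nat.prime_three
    (natCard_NN 3) ((act 3).comp c3)
    (fun l => 1 * (if c7 l = 1 then 1 + (7 - 1) ^ 2 else 7) *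
      (if c19 l = 1 then 1 + (19 - 1) ^ 2 else 19) *
      (if c73 l = 1 then 1 + (73 - 1) ^ 2 else 73))
  simp only [mul_one] at e4
  refine e4.trans (e3.trans (e2.trans (e1.trans ?_)))
  trans ∑ l : L, gg (Multiplicative.toAdd l.1) l.2.v
  · apply Finset.sum_congr rfl
    intro l _
    exact term_eq l
  rw [Fintype.sum_prod_type]
  have h3 : ∀ z : Multiplicative (ZMod 9), ∑ p : P, gg (Multiplicative.toAdd z) p.v =
      8 * ∑ v : V6, gg (Multiplicative.toAdd z) v := by
    intro z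
    rw [← Equiv.sum_comp P.equivProd.symm, Fintype.sum_prod_type, Finset.mul_sum]
    apply Finset.sum_congr rfl
    intro v _
    have h4 : ∀ w : W3, (P.equivProd.symm (v, w)).v = v := fun w => rfl
    simp only [h4]
    rw [Finset.sum_const, Finset.card_univ, smul_eq_mul]
    simp only [Fintype.card_prod, ZMod.card]
  simp only [h3]
  rw [← Finset.mul_sum]
  have h5 : ∑ z : Multiplicative (ZMod 9), ∑ v : V6, gg (Multiplicative.toAdd z) v =
      ∑ z : ZMod 9, ∑ v : V6, gg z v := by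
    apply Fintype.sum_equiv Multiplicative.toAdd
    intro z
    rfl
  rw [h5, gg_sum]
  norm_num

theorem not_simple_H4 : ¬ IsSimpleGroup H4 := by
  have : Nontrivial H3 := by
    rw [← Finite.one_lt_card_iff_nontrivial, card_H3]
    norm_num
  exact not_simple_semi _

end Pool.Agent.Work.MP3169
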