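import Mathlib

set_option autoImplicit false

namespace Pool.Agent.Work.MP3169

open SemidirectProduct

section Semi

variable {N G : Type} [CommGroup N] [Group G]

/-- Order of an element of a semidirect product whose second component acts trivially. -/
theorem orderOf_mk_of_eq_one (φ : G →* MulAut N) (n : N) (g : G) (h : φ g = 1) :
    orderOf (⟨n, g⟩ : N ⋊[φ] G) = Nat.lcm (orderOf n) (orderOf g) := by
  have hpow : ∀ k : ℕ, (⟨n, g⟩ : N ⋊[φ] G) ^ k = ⟨n ^ k, g ^ k⟩ := by
    intro k
    induction k with
    | zero => simp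
    | succ k ih =>
      rw [pow_succ, ih]
      ext
      · change n ^ k * (φ (g ^ k)) n = n ^ (k + 1)
        rw [map_pow, h, one_pow, MulAut.one_apply, pow_succ]
      · change g ^ k * g = g ^ (k + 1)
        rw [pow_succ]
  apply Nat.dvd_antisymm
  · rw [orderOf_dvd_iff_pow_eq_one, hpow]
    ext
    · simp only [one_left]
      exact orderOf_dvd_iff_pow_eq_one.1 (Nat.dvd_lcm_left _ _)
    · simp only [one_right]
      exact orderOf_dvd_iff_pow_eq_one.1 (Nat.dvd_lcm_right _ _)
  · have h1 := pow_orderOf_eq_one (⟨n, g⟩ : N ⋊[φ] G)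
    rw [hpow] at h1
    apply Nat.lcm_dvd
    · rw [orderOf_dvd_iff_pow_eq_one]
      exact congrArg SemidirectProduct.left h1
    · rw [orderOf_dvd_iff_pow_eq_one]
      exact congrArg SemidirectProduct.right h1

/-- Order of an element of a semidirect product with kernel of prime order whose second component
acts nontrivially. -/
theorem orderOf_mk_of_ne_one [Finite N] {r : ℕ} (hr : r.Prime) (hN : Nat.card N = r)
    (φ : G →* MulAut N) (n : N) (g : G) (h : φ g ≠ 1) :
    orderOf (⟨n, g⟩ : N ⋊[φ] G) = orderOf g := by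
  let f : N →* N := MonoidHom.mk' (fun m => m * (φ g m)⁻¹) (by
    intro a b
    simp only [map_mul, mul_inv]
    exact mul_mul_mul_comm _ _ _ _)
  have hfin : ∀ m, f m = m * (φ g m)⁻¹ := fun m => rfl
  have hker : f.ker = ⊥ := by
    have : Fact (Nat.card N).Prime := ⟨by rw [hN]; exact hr⟩
    rcases f.ker.eq_bot_or_eq_top_of_prime_card with h1 | h1
    · exact h1
    · exfalso
      apply h
      ext m
      have : m ∈ f.ker := by rw [h1]; trivial
      rw [MonoidHom.mem_ker, hfin, mul_inv_eq_one] at this
      simp [← this]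
  have hinj : Function.Injective f := (MonoidHom.ker_eq_bot_iff f).1 hker
  have hsurj : Function.Surjective f := Finite.surjective_of_injective hinj
  obtain ⟨m, hm⟩ := hsurj n
  have hconj : (⟨n, g⟩ : N ⋊[φ] G) = MulAut.conj (inl m) (inr g) := by
    rw [MulAut.conj_apply]
    ext
    · simp [← hm, hfin]
    · simp
  rw [hconj, MulEquiv.orderOf_eq, orderOf_injective inr inr_injective]

noncomputable instance instFintypeSemi [Fintype N] [Fintype G] (φ : G →* MulAut N) :
    Fintype (N ⋊[φ] G) :=
  Fintype.ofEquiv (N × G) SemidirectProduct.equivProd.symm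

/-- Weighted totient sum over a semidirect product with kernel of prime order. -/
theorem sum_semi [Fintype N] [Fintype G] {r : ℕ} (hr : r.Prime) (hN : Nat.card N = r)
    (φ : G →* MulAut N) (F : G → ℕ) :
    ∑ x : N ⋊[φ] G, Nat.totient (orderOf x) * F x.right =
      ∑ g : G, Nat.totient (orderOf g) *
        (F g * (open Classical in if φ g = 1 ∧ ¬ r ∣ orderOf g then 1 + (r - 1) ^ 2 else r)) := by
  classical
  have hN' : Fintype.card N = r := by rw [← hN, Nat.card_eq_fintype_card]
  rw [← Equiv.sum_comp SemidirectProduct.equivProd.symm, Fintype.sum_prod_type_right]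
  apply Finset.sum_congr rfl
  intro g _
  have hsym : ∀ n : N, (SemidirectProduct.equivProd.symm (n, g) : N ⋊[φ] G) = ⟨n, g⟩ :=
    fun n => rfl
  simp only [hsym]
  by_cases h1 : φ g = 1
  · simp only [orderOf_mk_of_eq_one φ _ g h1]
    have hord : ∀ n : N, n ≠ 1 → orderOf n = r := by
      intro n hn
      have : Fact (Nat.card N).Prime := ⟨by rw [hN]; exact hr⟩
      have := orderOf_dvd_natCard n
      rw [hN] at this
      rcases (Nat.dvd_prime hr).1 this with h2 | h2
      · exact absurd (orderOf_eq_one_iff.1 h2) hn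
      · exact h2
    rw [← Finset.add_sum_erase _ _ (Finset.mem_univ (1 : N))]
    have hrest : ∑ n ∈ Finset.univ.erase (1 : N), Nat.totient (Nat.lcm (orderOf n) (orderOf g)) * F g
        = (r - 1) * (Nat.totient (Nat.lcm r (orderOf g)) * F g) := by
      rw [Finset.sum_congr rfl (g := fun _ => Nat.totient (Nat.lcm r (orderOf g)) * F g)]
      · rw [Finset.sum_const, Finset.card_erase_of_mem (Finset.mem_univ _), Finset.card_univ, hN',
          smul_eq_mul]
      · intro n hn
        rw [hord n (Finset.ne_of_mem_erase hn)]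
    rw [hrest, orderOf_one, Nat.lcm_one_left]
    by_cases h2 : r ∣ orderOf g
    · rw [if_neg (by tauto), Nat.lcm_eq_right h2]
      obtain ⟨s, rfl⟩ : ∃ s, r = s + 1 := ⟨r - 1, by have := hr.pos; omega⟩
      simp only [Nat.add_sub_cancel]
      ring
    · rw [if_pos ⟨h1, h2⟩]
      have hc : Nat.Coprime r (orderOf g) := (Nat.Prime.coprime_iff_not_dvd hr).2 h2
      rw [hc.lcm_eq_mul, Nat.totient_mul hc, Nat.totient_prime hr]
      ring
  · simp only [orderOf_mk_of_ne_one hr hN φ _ g h1]
    rw [if_neg (by tauto), Finset.sum_const, Finset.card_univ, hN', smul_eq_mul]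
    ring

end Semi

end Pool.Agent.Work.MP3169
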