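import Pool.Agent.Work.MP_3169d4_al.SL2
import Pool.Agent.Work.MP_3169d4_al.Semi

set_option autoImplicit false

namespace Pool.Agent.Work.MP3169

/-- six bits -/
abbrev V6 : Type := ZMod 2 × ZMod 2 × ZMod 2 × ZMod 2 × ZMod 2 × ZMod 2
/-- three bits -/
abbrev W3 : Type := ZMod 2 × ZMod 2 × ZMod 2

/-- the bilinear cocycle -/
def bet (v u : V6) : W3 :=
  match v, u with
  | (_, v4, v3, v2, v1, v0), (u5, u4, u3, u2, u1, u0) =>
    (v0 * u3 + v1 * u5 + v2 * u3 + v2 * u4 + v3 * u5 + v4 * u4 + v4 * u5,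
     v0 * u0 + v0 * u2 + v0 * u4 + v0 * u5 + v1 * u1 + v1 * u2 + v1 * u5 + v2 * u4 + v2 * u5 +
       v3 * u3 + v4 * u4 + v4 * u5,
     v0 * u0 + v0 * u2 + v0 * u3 + v0 * u5 + v1 * u1 + v1 * u2 + v1 * u5 + v2 * u5 + v3 * u4 +
       v4 * u4)

theorem bet_add_left (v v' u : V6) : bet (v + v') u = bet v u + bet v' u := by
  obtain ⟨a5, a4, a3, a2, a1, a0⟩ := v
  obtain ⟨b5, b4, b3, b2, b1, b0⟩ := v'
  obtain ⟨c5, c4, c3, c2, c1, c0⟩ := u
  simp only [bet, Prod.mk_add_mk, Prod.mk.injEq]
  refine ⟨?_, ?_, ?_⟩ <;> ring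

theorem bet_add_right (v u u' : V6) : bet v (u + u') = bet v u + bet v u' := by
  obtain ⟨a5, a4, a3, a2, a1, a0⟩ := v
  obtain ⟨b5, b4, b3, b2, b1, b0⟩ := u
  obtain ⟨c5, c4, c3, c2, c1, c0⟩ := u'
  simp only [bet, Prod.mk_add_mk, Prod.mk.injEq]
  refine ⟨?_, ?_, ?_⟩ <;> ring

theorem bet_zero_left (u : V6) : bet 0 u = 0 := by
  have h := bet_add_left 0 0 u
  rw [add_zero] at h
  exact left_eq_add.1 h

theorem bet_zero_right (u : V6) : bet u 0 = 0 := by
  have h := bet_add_right u 0 0
  rw [add_zero] at h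
  exact left_eq_add.1 h

theorem add_self_V : ∀ v : V6, v + v = 0 := by decide +kernel

theorem add_self_W : ∀ v : W3, v + v = 0 := by decide +kernel

/-- the group of order 512 -/
@[ext]
structure P : Type where
  v : V6
  w : W3
deriving DecidableEq

namespace P

instance : Mul P := ⟨fun p q => ⟨p.v + q.v, p.w + q.w + bet p.v q.v⟩⟩
instance : One P := ⟨⟨0, 0⟩⟩
instance : Inv P := ⟨fun p => ⟨p.v, p.w + bet p.v p.v⟩⟩

theorem mul_v (p q : P) : (p * q).v = p.v + q.v := rfl
theorem mul_w (p q : P) : (p * q).w = p.w + q.w + bet p.v q.v := rfl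
theorem one_v : (1 : P).v = 0 := rfl
theorem one_w : (1 : P).w = 0 := rfl
theorem inv_v (p : P) : (p⁻¹).v = p.v := rfl
theorem inv_w (p : P) : (p⁻¹).w = p.w + bet p.v p.v := rfl

instance : Group P := Group.ofLeftAxioms
  (by
    intro a b c
    apply P.ext
    · simp only [mul_v, add_assoc]
    · simp only [mul_v, mul_w, bet_add_left, bet_add_right]
      abel)
  (by
    intro a
    apply P.ext
    · simp only [mul_v, one_v, zero_add]
    · simp only [mul_w, one_v, one_w, bet_zero_left, zero_add, add_zero])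
  (by
    intro a
    apply P.ext
    · simp only [mul_v, inv_v, one_v, add_self_V]
    · simp only [mul_w, inv_w, inv_v, one_w]
      have h1 := add_self_W a.w
      have h2 := add_self_W (bet a.v a.v)
      calc a.w + bet a.v a.v + a.w + bet a.v a.v = (a.w + a.w) + (bet a.v a.v + bet a.v a.v) := by
            abel
        _ = 0 := by rw [h1, h2, add_zero])

/-- coordinates -/
def equivProd : P ≃ V6 × W3 where
  toFun p := (p.v, p.w)
  invFun x := ⟨x.1, x.2⟩
  left_inv _ := rfl
  right_inv _ := rfl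

instance : Fintype P := Fintype.ofEquiv (V6 × W3) equivProd.symm

theorem card_P : Fintype.card P = 512 := by
  rw [Fintype.card_congr equivProd]
  simp only [Fintype.card_prod, ZMod.card]

theorem sq (p : P) : p * p = ⟨0, bet p.v p.v⟩ := by
  apply P.ext
  · rw [mul_v, add_self_V]
  · rw [mul_w, add_self_W, zero_add]

theorem fourth (p : P) : (p * p) * (p * p) = 1 := by
  rw [sq, sq]
  apply P.ext
  · rfl
  · rw [bet_zero_left]; rfl

theorem sq_eq_one_iff (p : P) : p * p = 1 ↔ bet p.v p.v = 0 := by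
  rw [sq]
  constructor
  · intro h
    exact congrArg P.w h
  · intro h
    rw [h]; rfl

end P

theorem totient_order_four {G : Type} [Group G] (p : G) (h4 : (p * p) * (p * p) = 1) [Decidable (p * p = 1)] :
    Nat.totient (orderOf p) = if p * p = 1 then 1 else 2 := by
  by_cases h : p * p = 1
  · rw [if_pos h, totient_of_sq_eq_one p h]
  · rw [if_neg h]
    have h1 : orderOf p = 2 ^ (1 + 1) := by
      apply orderOf_eq_prime_pow
      · rwa [pow_one, pow_two]
      · rw [show 2 ^ (1 + 1) = 2 + 2 by norm_num, pow_add, pow_two]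
        exact h4
    rw [h1]
    rfl

theorem order_four_dvd {G : Type} [Group G] (p : G) (h4 : (p * p) * (p * p) = 1) :
    orderOf p ∣ 4 := by
  rw [orderOf_dvd_iff_pow_eq_one, show 4 = 2 + 2 by norm_num, pow_add, pow_two]
  exact h4

theorem totient_order_nine {G : Type} [Group G] (z : G) (h9 : z ^ 9 = 1) [Decidable (z = 1)]
    [Decidable (z ^ 3 = 1)] :
    Nat.totient (orderOf z) = if z = 1 then 1 else if z ^ 3 = 1 then 2 else 6 := by
  by_cases h : z = 1
  · rw [if_pos h, h, orderOf_one]; rfl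
  · rw [if_neg h]
    by_cases h3 : z ^ 3 = 1
    · rw [if_pos h3]
      have : orderOf z = 3 := by
        have := Fact.mk Nat.prime_three
        exact orderOf_eq_prime h3 h
      rw [this]; rfl
    · rw [if_neg h3]
      have h1 : orderOf z = 3 ^ (1 + 1) := by
        have := Fact.mk Nat.prime_three
        apply orderOf_eq_prime_pow
        · rwa [pow_one]
        · exact h9
      rw [h1]
      rfl

/-- the cyclic group of order r, written multiplicatively -/
def NN (r : ℕ) : Type := Multiplicative (ZMod r)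

instance (r : ℕ) : CommGroup (NN r) := inferInstanceAs (CommGroup (Multiplicative (ZMod r)))
instance (r : ℕ) [NeZero r] : Fintype (NN r) :=
  inferInstanceAs (Fintype (Multiplicative (ZMod r)))

theorem natCard_NN (r : ℕ) : Nat.card (NN r) = r := by
  rw [NN, Nat.card_congr Multiplicative.toAdd, Nat.card_zmod]

/-- the scalar automorphism given by a unit -/
def sc (r : ℕ) (u : (ZMod r)ˣ) : MulAut (NN r) where
  toFun x := Multiplicative.ofAdd (u * Multiplicative.toAdd x)
  invFun x := Multiplicative.ofAdd (↑u⁻¹ * Multiplicative.toAdd x)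
  left_inv x := by
    change Multiplicative.ofAdd (↑u⁻¹ * (↑u * Multiplicative.toAdd x)) = x
    rw [Units.inv_mul_cancel_left]; rfl
  right_inv x := by
    change Multiplicative.ofAdd (↑u * (↑u⁻¹ * Multiplicative.toAdd x)) = x
    rw [Units.mul_inv_cancel_left]; rfl
  map_mul' x y := by
    change Multiplicative.ofAdd (↑u * (Multiplicative.toAdd x + Multiplicative.toAdd y)) =
      Multiplicative.ofAdd (↑u * Multiplicative.toAdd x + ↑u * Multiplicative.toAdd y)
    rw [mul_add]

theorem sc_apply (r : ℕ) (u : (ZMod r)ˣ) (x : NN r) :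
    sc r u x = Multiplicative.ofAdd (u * Multiplicative.toAdd x) := rfl

/-- scalar action of units on the cyclic group -/
def act (r : ℕ) : (ZMod r)ˣ →* MulAut (NN r) :=
  MonoidHom.mk' (sc r) (by
    intro u v
    apply MulEquiv.ext
    intro x
    rw [MulAut.mul_apply, sc_apply, sc_apply, sc_apply, Units.val_mul, mul_assoc]
    rfl)

theorem act_eq_one (r : ℕ) (u : (ZMod r)ˣ) : act r u = 1 ↔ u = 1 := by
  constructor
  · intro h
    have h1 : act r u (Multiplicative.ofAdd (1 : ZMod r)) =
      (1 : MulAut (NN r)) (Multiplicative.ofAdd (1 : ZMod r)) := by rw [h]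
    have h2 : (u : ZMod r) * 1 = 1 := h1
    ext
    rw [Units.val_one, ← h2, mul_one]
  · rintro rfl
    exact map_one _

/-- the acting group of order 4608 -/
abbrev L : Type := Multiplicative (ZMod 9) × P

theorem neg_one_pow_val {r : ℕ} (a b : ZMod 2) :
    (-1 : (ZMod r)ˣ) ^ (a + b).val = (-1) ^ a.val * (-1) ^ b.val := by
  have h : ∀ a b : ZMod 2, a.val + b.val = (a + b).val ∨ a.val + b.val = (a + b).val + 2 := by
    decide
  rw [← pow_add]
  rcases h a b with h | h
  · rw [h]
  · rw [h, pow_add, neg_one_sq, mul_one]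

/-- a character -/
def mkChar {r : ℕ} (ω : (ZMod r)ˣ)
    (hω : ∀ a b : ZMod 9, ω ^ (a + b).val = ω ^ a.val * ω ^ b.val)
    (lam : V6 → ZMod 2) (hl : ∀ p q, lam (p + q) = lam p + lam q) : L →* (ZMod r)ˣ :=
  MonoidHom.mk' (fun x => ω ^ (Multiplicative.toAdd x.1).val * (-1) ^ (lam x.2.v).val) (by
    intro x y
    change ω ^ (Multiplicative.toAdd x.1 + Multiplicative.toAdd y.1).val *
      (-1) ^ (lam (x.2.v + y.2.v)).val = _
    rw [hω, hl, neg_one_pow_val]
    exact mul_mul_mul_comm _ _ _ _)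

end Pool.Agent.Work.MP3169
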