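import Mathlib

set_option autoImplicit false

namespace Pool.Agent.Work.MP3169

open Matrix

/-- Coefficients `(c, d)` with `X ^ n = c X + d` modulo `X ^ 2 - t X + 1`. -/
def co {R : Type} [CommRing R] (t : R) : ℕ → R × R
  | 0 => (0, 1)
  | n + 1 => (t * (co t n).1 + (co t n).2, -(co t n).1)

theorem pow_co {R A : Type} [CommRing R] [Ring A] [Algebra R A] (t : R) (x : A)
    (hx : x * x = t • x - 1) (n : ℕ) :
    x ^ n = (co t n).1 • x + (co t n).2 • (1 : A) := by
  induction n with
  | zero => simp [co]
  | succ n ih =>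
    rw [pow_succ, ih, add_mul, smul_mul_assoc, hx, smul_mul_assoc, one_mul]
    simp only [co]
    rw [smul_sub, add_smul, smul_smul, mul_comm (co t n).1 t, neg_smul]
    abel

section Order

variable {F : Type} [Field F] [CharP F 2]

theorem two_zero : (2 : F) = 0 := CharTwo.two_eq_zero

/-- trace of an element of SL2 -/
def tr (g : Matrix.SpecialLinearGroup (Fin 2) F) : F :=
  (g : Matrix (Fin 2) (Fin 2) F) 0 0 + (g : Matrix (Fin 2) (Fin 2) F) 1 1

omit [CharP F 2] in
theorem det_eq (g : Matrix.SpecialLinearGroup (Fin 2) F) :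
    (g : Matrix (Fin 2) (Fin 2) F) 0 0 * (g : Matrix (Fin 2) (Fin 2) F) 1 1 -
      (g : Matrix (Fin 2) (Fin 2) F) 0 1 * (g : Matrix (Fin 2) (Fin 2) F) 1 0 = 1 := by
  have h := g.det_coe
  rwa [Matrix.det_fin_two] at h

omit [CharP F 2] in
theorem sq_eq (g : Matrix.SpecialLinearGroup (Fin 2) F) :
    (g : Matrix (Fin 2) (Fin 2) F) * (g : Matrix (Fin 2) (Fin 2) F) =
      tr g • (g : Matrix (Fin 2) (Fin 2) F) - 1 := by
  have h := det_eq g
  ext i j
  fin_cases i <;> fin_cases j <;>
    simp [Matrix.mul_apply, Fin.sum_univ_two, tr] <;> first | ring1 | linear_combination -h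

theorem pow_eq_one_iff_co (g : Matrix.SpecialLinearGroup (Fin 2) F) (ht : tr g ≠ 0) (n : ℕ) :
    g ^ n = 1 ↔ co (tr g) n = (0, 1) := by
  have h1 : g ^ n = 1 ↔ (g : Matrix (Fin 2) (Fin 2) F) ^ n = 1 := by
    constructor
    · intro h
      rw [← Matrix.SpecialLinearGroup.coe_pow, h, Matrix.SpecialLinearGroup.coe_one]
    · intro h
      apply Matrix.SpecialLinearGroup.ext
      intro i j
      rw [Matrix.SpecialLinearGroup.coe_pow, h, Matrix.SpecialLinearGroup.coe_one]
  rw [h1, pow_co (tr g) _ (sq_eq g) n]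
  set c := (co (tr g) n).1 with hc
  set d := (co (tr g) n).2 with hd
  constructor
  · intro h
    have h00 := congrFun (congrFun h 0) 0
    have h01 := congrFun (congrFun h 0) 1
    have h10 := congrFun (congrFun h 1) 0
    have h11 := congrFun (congrFun h 1) 1
    simp at h00 h01 h10 h11
    have hc0 : c = 0 := by
      by_contra hne
      apply ht
      have h2 : (g : Matrix (Fin 2) (Fin 2) F) 0 0 = (g : Matrix (Fin 2) (Fin 2) F) 1 1 := by
        apply mul_left_cancel₀ hne
        linear_combination h00 - h11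
      simp only [tr]
      rw [h2]
      exact CharTwo.add_self_eq_zero _
    rw [hc0] at h00
    ext
    · exact hc0
    · simpa using h00
  · intro h
    have h1 : c = 0 := by rw [hc, h]
    have h2 : d = 1 := by rw [hd, h]
    rw [h1, h2]
    simp

theorem pow_eq_one_iff_co' {K : Type} [Field K] [Algebra F K] (t : F) (ht : t ≠ 0) (α : K)
    (hα : α ≠ 0) (hαt : algebraMap F K t = α + α⁻¹) (n : ℕ) :
    α ^ n = 1 ↔ co t n = (0, 1) := by
  have hK : (2 : K) = 0 := by
    have h := congrArg (algebraMap F K) (two_zero (F := F))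
    rwa [map_ofNat, map_zero] at h
  have hsq : α * α = t • α - 1 := by
    rw [Algebra.smul_def, hαt]
    field_simp
    ring
  have hsq' : α⁻¹ * α⁻¹ = t • α⁻¹ - 1 := by
    rw [Algebra.smul_def, hαt]
    field_simp
    ring
  have hne : α ≠ α⁻¹ := by
    intro h
    apply ht
    apply (algebraMap F K).injective
    rw [hαt, ← h, map_zero, ← two_mul, hK, zero_mul]
  have e1 := pow_co t α hsq n
  have e2 := pow_co t α⁻¹ hsq' n
  constructor
  · intro h
    have h' : α⁻¹ ^ n = 1 := by rw [inv_pow, h, inv_one]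
    rw [h] at e1
    rw [h'] at e2
    rw [Algebra.smul_def, Algebra.smul_def, mul_one] at e1 e2
    have h3 : algebraMap F K (co t n).1 * (α - α⁻¹) = 0 := by
      linear_combination e2 - e1
    have h4 : algebraMap F K (co t n).1 = 0 := by
      rcases mul_eq_zero.1 h3 with h5 | h5
      · exact h5
      · exact absurd (sub_eq_zero.1 h5) hne
    have h6 : (co t n).1 = 0 := by
      apply (algebraMap F K).injective
      rw [h4, map_zero]
    have h7 : (co t n).2 = 1 := by
      apply (algebraMap F K).injective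
      rw [map_one, e1, h4]
      ring
    ext
    · exact h6
    · exact h7
  · intro h
    rw [e1, h]
    simp

/-- companion element of trace t -/
def comp (t : F) : Matrix.SpecialLinearGroup (Fin 2) F :=
  ⟨!![0, -1; 1, t], by simp [Matrix.det_fin_two]⟩

omit [CharP F 2] in
theorem tr_comp (t : F) : tr (comp t) = t := by
  simp [tr, comp]

/-- common totient value of the order of elements with given trace -/
noncomputable def fo (t : F) : ℕ := Nat.totient (orderOf (comp t))

theorem totient_of_sq_eq_one {G : Type} [Monoid G] (g : G) (h : g * g = 1) :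
    Nat.totient (orderOf g) = 1 := by
  have h1 : orderOf g ∣ 2 := by
    rw [orderOf_dvd_iff_pow_eq_one, pow_two]
    exact h
  rcases (Nat.dvd_prime Nat.prime_two).1 h1 with h2 | h2
  · rw [h2]; rfl
  · rw [h2]; rfl

theorem totient_of_tr_zero (k : Matrix.SpecialLinearGroup (Fin 2) F) (hk : tr k = 0) :
    Nat.totient (orderOf k) = 1 := by
  apply totient_of_sq_eq_one
  apply Matrix.SpecialLinearGroup.ext
  intro i j
  rw [Matrix.SpecialLinearGroup.coe_mul, sq_eq k, hk, zero_smul, zero_sub, Matrix.SpecialLinearGroup.coe_one]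
  simp [CharTwo.neg_eq]

theorem totient_order_eq_fo (g : Matrix.SpecialLinearGroup (Fin 2) F) :
    Nat.totient (orderOf g) = fo (tr g) := by
  by_cases ht : tr g = 0
  · rw [fo, totient_of_tr_zero g ht, totient_of_tr_zero (comp (tr g)) (by rw [tr_comp, ht])]
  · rw [fo]
    congr 1
    rw [orderOf_eq_orderOf_iff]
    intro n
    rw [pow_eq_one_iff_co g ht, pow_eq_one_iff_co (comp (tr g)) (by rwa [tr_comp]), tr_comp]

theorem fo_eq_of_root {K : Type} [Field K] [Algebra F K] (t : F) (α : K)
    (hα : α ≠ 0) (hαt : algebraMap F K t = α + α⁻¹) : fo t = Nat.totient (orderOf α) := by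
  have hK : (2 : K) = 0 := by
    have h := congrArg (algebraMap F K) (two_zero (F := F))
    rwa [map_ofNat, map_zero] at h
  by_cases ht : t = 0
  · have h1 : α * α = 1 := by
      have h2 : α + α⁻¹ = 0 := by rw [← hαt, ht, map_zero]
      have h3 : α * (α + α⁻¹) = 0 := by rw [h2, mul_zero]
      rw [mul_add, mul_inv_cancel₀ hα] at h3
      linear_combination h3 - hK
    rw [totient_of_sq_eq_one α h1, fo, totient_of_tr_zero (comp t) (by rw [tr_comp, ht])]
  · rw [fo]
    congr 1
    rw [orderOf_eq_orderOf_iff]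
    intro n
    rw [pow_eq_one_iff_co (comp t) (by rwa [tr_comp]), tr_comp, pow_eq_one_iff_co' t ht α hα hαt]

end Order

section Count

variable {F : Type} [Field F] [Fintype F] [DecidableEq F]

theorem count_prod (k : F) :
    ∑ b : F, ∑ c : F, (if b * c = k then 1 else 0) =
      (if k = 0 then Fintype.card F else 0) + (Fintype.card F - 1) := by
  rw [← Finset.add_sum_erase _ _ (Finset.mem_univ (0 : F))]
  congr 1
  · by_cases hk : k = 0
    · simp [hk]
    · simp [hk, Ne.symm hk]
  · rw [Finset.sum_congr rfl (g := fun _ => 1)]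
    · simp [Finset.card_erase_of_mem]
    · intro b hb
      have hb0 : b ≠ 0 := Finset.ne_of_mem_erase hb
      rw [Finset.sum_eq_single (b⁻¹ * k)]
      · rw [if_pos (mul_inv_cancel_left₀ hb0 k)]
      · intro c _ hc
        rw [if_neg]
        intro h
        apply hc
        rw [← h, inv_mul_cancel_left₀ hb0]
      · simp

/-- coordinates on SL2 -/
def slEquiv : Matrix.SpecialLinearGroup (Fin 2) F ≃
    {x : (F × F) × (F × F) // x.1.1 * (x.1.2 - x.1.1) - x.2.1 * x.2.2 = 1} where
  toFun g := ⟨(((g : Matrix (Fin 2) (Fin 2) F) 0 0, tr g),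
      ((g : Matrix (Fin 2) (Fin 2) F) 0 1, (g : Matrix (Fin 2) (Fin 2) F) 1 0)), by
    have h := det_eq g
    simp only [tr]
    linear_combination h⟩
  invFun x := ⟨!![x.1.1.1, x.1.2.1; x.1.2.2, x.1.1.2 - x.1.1.1], by
    rw [Matrix.det_fin_two]
    simpa using x.2⟩
  left_inv g := by
    apply Subtype.ext
    ext i j
    fin_cases i <;> fin_cases j <;> simp [tr]
  right_inv x := by
    apply Subtype.ext
    simp [tr]

theorem sum_trace (f : F → ℕ) :
    ∑ g : Matrix.SpecialLinearGroup (Fin 2) F, f (tr g) =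
      (Fintype.card F - 1) * Fintype.card F * ∑ t : F, f t +
        Fintype.card F * ∑ a : Fˣ, f (a + (a : F)⁻¹) := by
  have h1 : ∑ g : Matrix.SpecialLinearGroup (Fin 2) F, f (tr g) =
      ∑ x : {x : (F × F) × (F × F) // x.1.1 * (x.1.2 - x.1.1) - x.2.1 * x.2.2 = 1},
        f x.1.1.2 := by
    apply Fintype.sum_equiv slEquiv
    intro g
    rfl
  have h2 : ∑ x : {x : (F × F) × (F × F) // x.1.1 * (x.1.2 - x.1.1) - x.2.1 * x.2.2 = 1},
        f x.1.1.2 = ∑ x : (F × F) × (F × F),
          if x.1.1 * (x.1.2 - x.1.1) - x.2.1 * x.2.2 = 1 then f x.1.2 else 0 := by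
    rw [← Finset.sum_filter]
    exact (Finset.sum_subtype (p := fun x : (F × F) × (F × F) =>
      x.1.1 * (x.1.2 - x.1.1) - x.2.1 * x.2.2 = 1) _ (by simp) (fun x => f x.1.2)).symm
  rw [h1, h2, Fintype.sum_prod_type]
  have h3 : ∀ x : F × F, ∑ y : F × F,
      (if x.1 * (x.2 - x.1) - y.1 * y.2 = 1 then f x.2 else 0) =
        f x.2 * ((if x.1 * (x.2 - x.1) - 1 = 0 then Fintype.card F else 0) +
          (Fintype.card F - 1)) := by
    intro x
    rw [← count_prod, Finset.mul_sum, Fintype.sum_prod_type]
    apply Finset.sum_congr rfl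
    intro b _
    rw [Finset.mul_sum]
    apply Finset.sum_congr rfl
    intro c _
    by_cases h : b * c = x.1 * (x.2 - x.1) - 1
    · rw [if_pos h, if_pos (by rw [h]; ring), mul_one]
    · rw [if_neg h, if_neg (fun h' => h (by linear_combination -h')), mul_zero]
  rw [Finset.sum_congr rfl (fun x _ => h3 x)]
  simp only [mul_add]
  rw [Finset.sum_add_distrib, Fintype.sum_prod_type_right, Fintype.sum_prod_type, add_comm]
  congr 1
  · simp only
    rw [Finset.sum_const, Finset.card_univ, smul_eq_mul, ← Finset.sum_mul]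
    ring
  · have h4 : ∀ x : F, ∑ t : F, f t * (if x * (t - x) - 1 = 0 then Fintype.card F else 0) =
        if x = 0 then 0 else Fintype.card F * f (x + x⁻¹) := by
      intro x
      by_cases hx : x = 0
      · rw [if_pos hx]
        apply Finset.sum_eq_zero
        intro t _
        rw [if_neg (by rw [hx]; simp), mul_zero]
      · rw [if_neg hx, Finset.sum_eq_single (x + x⁻¹)]
        · rw [if_pos (by field_simp; ring), mul_comm]
        · intro t _ ht
          rw [if_neg, mul_zero]
          intro h
          apply ht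
          field_simp
          linear_combination h
        · simp
    rw [Finset.sum_comm]
    simp only [h4]
    rw [Finset.mul_sum]
    rw [← Equiv.sum_comp (unitsEquivNeZero (G₀ := F)).symm]
    have h5 : ∀ y : {a : F // a ≠ 0}, ((unitsEquivNeZero (G₀ := F)).symm y : F) = y := fun y => rfl
    simp only [h5]
    rw [← Finset.sum_subtype (p := fun a : F => a ≠ 0) (Finset.univ.filter (fun a : F => a ≠ 0))
      (by simp) (fun a => Fintype.card F * f (a + a⁻¹)), Finset.sum_filter]
    apply Finset.sum_congr rfl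
    intro x _
    by_cases hx : x = 0 <;> simp [hx]

end Count

end Pool.Agent.Work.MP3169
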